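import Pool.Agent.Q118.DCount
set_option autoImplicit false
open Finset
open scoped Classical

/-!
Two-colour Ramsey numbers of the family of trees of diameter at most three: the exact set of pairs
`(k, r)` for which the formula `5 k - r` is correct.
-/

namespace Pool.Agent.Results.MP_f88521_co.Classification

open Pool.Agent.Q118.ShallowTree Pool.Agent.Q118.DStar Pool.Agent.Q118.DCount

/-- Every two-colouring of the edges of the complete graph on `N` vertices (first colour `R`, second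
colour its complement) contains a monochromatic tree on `n` vertices of diameter at most `d`. -/
def Forces (n d N : ℕ) : Prop :=
  ∀ R : SimpleGraph (Fin N), ∃ T : SimpleGraph (Fin n), T.IsTree ∧ T.diam ≤ d ∧
    (T.IsContained R ∨ T.IsContained Rᶜ)

/-- The Ramsey number `R(τ_n(d), 2)`. -/
noncomputable def ramseyTau (n d : ℕ) : ℕ := sInf {N | Forces n d N}

theorem forces_mono {n d N M : ℕ} (h : Forces n d N) (hNM : N ≤ M) : Forces n d M := by
  intro R
  obtain ⟨T, hT, hd, hc⟩ := h (R.comap (Fin.castLE hNM))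
  refine ⟨T, hT, hd, ?_⟩
  have hinj : Function.Injective (Fin.castLE hNM) := Fin.castLE_injective hNM
  rcases hc with ⟨⟨f⟩⟩ | ⟨⟨f⟩⟩
  · left
    exact ⟨⟨⟨fun i => Fin.castLE hNM (f i), fun {a b} hab => f.toHom.map_adj hab⟩,
      fun a b hab => f.injective (hinj hab)⟩⟩
  · right
    refine ⟨⟨⟨fun i => Fin.castLE hNM (f i), fun {a b} hab => ?_⟩,
      fun a b hab => f.injective (hinj hab)⟩⟩
    have h1 : (R.comap (Fin.castLE hNM))ᶜ.Adj (f a) (f b) := f.toHom.map_adj hab
    rw [SimpleGraph.compl_adj, SimpleGraph.comap_adj] at h1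
    rw [SimpleGraph.compl_adj]
    exact ⟨fun h2 => h1.1 (hinj h2), h1.2⟩

/-- Counting neighbours of an edge in its own colour. -/
theorem nbrs_ncard {N : ℕ} (R : SimpleGraph (Fin N)) {u v : Fin N} (h : R.Adj u v) :
    (nbrs R u v).ncard + (opp R u v).card = N := by
  have h1 : (nbrs R u v)ᶜ = (opp R u v : Set (Fin N)) := by
    ext w
    simp only [nbrs, opp, Set.mem_compl_iff, Set.mem_ofPred_eq, coe_filter, mem_univ, true_and]
    constructor
    · intro hw
      rw [not_or] at hw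
      refine ⟨fun e => hw.2 (by rw [e]; exact h.symm), fun e => hw.1 (by rw [e]; exact h), ?_, ?_⟩
      · exact ⟨fun a => absurd a hw.1, fun a => absurd a hw.2⟩
      · intro a
        exact hw.1 (a.2 h)
    · rintro ⟨h1, h2, h3, h4⟩ (h5 | h5)
      · exact h4 ⟨fun _ => h, fun _ => h5⟩
      · exact h4 ⟨fun _ => h, fun _ => h3.2 h5⟩
  have h2 := Set.ncard_add_ncard_compl (nbrs R u v)
  rw [h1, Set.ncard_coe_finset, Nat.card_eq_fintype_card, Fintype.card_fin] at h2
  exact h2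

theorem opp_compl {N : ℕ} (R : SimpleGraph (Fin N)) {u v : Fin N} (h : u ≠ v) :
    opp Rᶜ u v = opp R u v := by
  unfold opp
  ext w
  simp only [mem_filter, mem_univ, true_and, SimpleGraph.compl_adj]
  constructor
  · rintro ⟨h1, h2, h3, h4⟩
    refine ⟨h1, h2, ?_, ?_⟩
    · simpa [Ne.symm h1, Ne.symm h2, not_iff_not] using h3
    · simpa [Ne.symm h1, h, not_iff_not] using h4
  · rintro ⟨h1, h2, h3, h4⟩
    refine ⟨h1, h2, ?_, ?_⟩
    · simpa [Ne.symm h1, Ne.symm h2, not_iff_not] using h3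
    · simpa [Ne.symm h1, h, not_iff_not] using h4

theorem forces_iff {n N : ℕ} (hn : 2 ≤ n) : Forces n 3 N ↔
    ∀ R : SimpleGraph (Fin N), ∃ u v, u ≠ v ∧ n + (opp R u v).card ≤ N := by
  constructor
  · intro h R
    obtain ⟨T, hT, hd, hc⟩ := h R
    rcases hc with hc | hc
    · obtain ⟨u, v, huv, hcard⟩ := (contains_iff R hn).1 ⟨T, hT, hd, hc⟩
      have := nbrs_ncard R huv
      exact ⟨u, v, huv.ne, by omega⟩
    · obtain ⟨u, v, huv, hcard⟩ := (contains_iff Rᶜ hn).1 ⟨T, hT, hd, hc⟩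
      have := nbrs_ncard Rᶜ huv
      rw [opp_compl R huv.ne] at this
      exact ⟨u, v, huv.ne, by omega⟩
  · intro h R
    obtain ⟨u, v, huv, hcard⟩ := h R
    by_cases hadj : R.Adj u v
    · have := nbrs_ncard R hadj
      obtain ⟨T, h1, h2, h3⟩ := (contains_iff R hn).2 ⟨u, v, hadj, by omega⟩
      exact ⟨T, h1, h2, Or.inl h3⟩
    · have hadj' : Rᶜ.Adj u v := by rw [SimpleGraph.compl_adj]; exact ⟨huv, hadj⟩
      have := nbrs_ncard Rᶜ hadj'
      rw [opp_compl R huv] at this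
      obtain ⟨T, h1, h2, h3⟩ := (contains_iff Rᶜ hn).2 ⟨u, v, hadj', by omega⟩
      exact ⟨T, h1, h2, Or.inr h3⟩

theorem mem_opp {N : ℕ} (R : SimpleGraph (Fin N)) (u v w : Fin N) : w ∈ opp R u v ↔
    w ≠ u ∧ w ≠ v ∧ (R.Adj u w ↔ R.Adj v w) ∧ ¬ (R.Adj u w ↔ R.Adj u v) := by
  unfold opp
  rw [mem_filter]
  exact ⟨fun h => h.2, fun h => ⟨mem_univ _, h⟩⟩

theorem not_forces_of_good {n N j : ℕ} (hn : 2 ≤ n) (h : Good N j) (hN : N < n + j) :
    ¬ Forces n 3 N := by
  rw [forces_iff hn]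
  intro hF
  obtain ⟨A, hA, hg⟩ := h
  let R : SimpleGraph (Fin N) :=
    { Adj := fun u v => u ≠ v ∧ A u v = true
      symm := ⟨fun u v h => ⟨h.1.symm, by rw [hA]; exact h.2⟩⟩
      loopless := ⟨fun u h => h.1 rfl⟩ }
  have hR : ∀ u v, R.Adj u v ↔ u ≠ v ∧ A u v = true := fun u v => Iff.rfl
  obtain ⟨u, v, huv, hcard⟩ := hF R
  have h1 : (univ.filter fun w => A u w = A v w ∧ A u w ≠ A u v) ⊆ opp R u v := by
    intro w hw
    rw [mem_filter] at hw
    obtain ⟨-, h2, h3⟩ := hw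
    have hwu : w ≠ u := by
      rintro rfl
      exact h3 (by rw [h2]; exact hA _ _)
    have hwv : w ≠ v := by
      rintro rfl
      exact h3 rfl
    refine (mem_opp R u v w).2 ⟨hwu, hwv, ?_, ?_⟩
    · rw [hR, hR, h2]
      simp [hwu.symm, hwv.symm]
    · rw [hR, hR]
      simp only [ne_eq, hwu.symm, not_false_eq_true, true_and, huv]
      intro h4
      exact h3 (Bool.eq_iff_iff.2 h4)
  have h2 := (hg u v).trans (card_le_card h1)
  omega

theorem forces_of_bound {n N : ℕ} (hn : 2 ≤ n)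
    (h : ∀ R : SimpleGraph (Fin N), ¬ ∀ u v, u ≠ v → N + 1 - n ≤ (opp R u v).card) (hnN : n ≤ N) :
    Forces n 3 N := by
  rw [forces_iff hn]
  intro R
  by_contra hcon
  refine h R fun u v huv => ?_
  by_contra hlt
  exact hcon ⟨u, v, huv, by omega⟩

theorem forces_one {N : ℕ} (hN : 1 ≤ N) : Forces 1 3 N := by
  intro R
  have hT : (⊥ : SimpleGraph (Fin 1)).IsTree := SimpleGraph.IsTree.of_subsingleton
  have hd : (⊥ : SimpleGraph (Fin 1)).diam ≤ 3 := by rw [SimpleGraph.diam_bot]; omega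
  have hmap : ∀ {a b : Fin 1}, (⊥ : SimpleGraph (Fin 1)).Adj a b → R.Adj ⟨0, hN⟩ ⟨0, hN⟩ := by
    intro a b hab
    rw [SimpleGraph.bot_adj] at hab
    exact hab.elim
  have hc : (⊥ : SimpleGraph (Fin 1)).IsContained R :=
    ⟨⟨⟨fun _ => ⟨0, hN⟩, hmap⟩, fun a b _ => Subsingleton.elim a b⟩⟩
  exact ⟨⊥, hT, hd, Or.inl hc⟩

theorem not_forces_zero : ¬ Forces 1 3 0 := by
  intro h
  obtain ⟨T, -, -, hc⟩ := h ⊥
  rcases hc with ⟨⟨f⟩⟩ | ⟨⟨f⟩⟩
  · exact (f 0).elim0
  · exact (f 0).elim0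

theorem exists_forces {n : ℕ} (hn : 2 ≤ n) : Forces n 3 (2 * n) := by
  refine forces_of_bound hn (fun R hR => ?_) (by omega)
  have := (count_bound (by omega) R hR).1
  omega

/-- The Ramsey number is `N + 1` when `N + 1` forces and `N` does not. -/
theorem ramseyTau_eq {n N : ℕ} (h1 : Forces n 3 (N + 1)) (h2 : ¬ Forces n 3 N) :
    ramseyTau n 3 = N + 1 := by
  apply le_antisymm
  · exact Nat.sInf_le h1
  · by_contra hlt
    push Not at hlt
    have h3 : Forces n 3 (ramseyTau n 3) := Nat.sInf_mem (s := {N | Forces n 3 N}) ⟨_, h1⟩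
    exact h2 (forces_mono h3 (by omega))

/-- For `k ≥ 1` and `r ∈ {1,2,3,4}`: `R(τ_{4k-r+1}(3), 2) = 5k - r` if `k ≤ r` or `(k,r) = (5,4)`, and
`R(τ_{4k-r+1}(3), 2) > 5k - r` for all other pairs. -/
theorem result : ∀ k r : ℕ, 1 ≤ k → 1 ≤ r → r ≤ 4 →
    ((k ≤ r ∨ (k = 5 ∧ r = 4)) → ramseyTau (4 * k - r + 1) 3 = 5 * k - r) ∧
    (¬ (k ≤ r ∨ (k = 5 ∧ r = 4)) → 5 * k - r < ramseyTau (4 * k - r + 1) 3) := by
  intro k r hk hr hr4
  constructor
  · intro h
    by_cases hone : k = 1 ∧ r = 4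
    · obtain ⟨rfl, rfl⟩ := hone
      exact ramseyTau_eq (forces_one le_rfl) not_forces_zero
    have hn : 2 ≤ 4 * k - r + 1 := by omega
    have h1 : Forces (4 * k - r + 1) 3 (5 * k - r - 1 + 1) := by
      refine forces_of_bound hn (fun R hR => ?_) (by omega)
      have hk' : 5 * k - r - 1 + 1 + 1 - (4 * k - r + 1) = k := by omega
      rw [hk'] at hR
      rcases h with h | ⟨rfl, rfl⟩
      · have := (count_bound (by omega) R hR).1
        omega
      · exact no_21 R hR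
    have h2 : ¬ Forces (4 * k - r + 1) 3 (5 * k - r - 1) :=
      not_forces_of_good hn (good_below hk hr4 h) (by omega)
    rw [ramseyTau_eq h1 h2]
    omega
  · intro h
    rw [not_or] at h
    have hn : 2 ≤ 4 * k - r + 1 := by omega
    have h2 : ¬ Forces (4 * k - r + 1) 3 (5 * k - r) :=
      not_forces_of_good hn (good_above hr hr4 (by omega) h.2) (by omega)
    by_contra hle
    push Not at hle
    have h3 : Forces (4 * k - r + 1) 3 (ramseyTau (4 * k - r + 1) 3) :=
      Nat.sInf_mem (s := {N | Forces (4 * k - r + 1) 3 N}) ⟨_, exists_forces hn⟩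
    exact h2 (forces_mono h3 hle)

end Pool.Agent.Results.MP_f88521_co.Classification
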